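import Pool.Agent.H5.W.Defs

/-!
Lower bounds for the sieve sums of dimension one and two.
-/

namespace Pool.Agent.H5.W

open Finset

theorem sum_le_of_injOn {α β : Type*} (s : Finset α) (t : Finset β) (f : α → β) (g : α → ℝ)
    (h : β → ℝ) (hf : ∀ a ∈ s, f a ∈ t) (hinj : Set.InjOn f s) (hgh : ∀ a ∈ s, g a ≤ h (f a))
    (hpos : ∀ b ∈ t, 0 ≤ h b) : ∑ a ∈ s, g a ≤ ∑ b ∈ t, h b := by
  classical
  calc ∑ a ∈ s, g a ≤ ∑ a ∈ s, h (f a) := Finset.sum_le_sum hgh
    _ = ∑ b ∈ s.image f, h b := (Finset.sum_image hinj).symm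
    _ ≤ ∑ b ∈ t, h b := by
        apply Finset.sum_le_sum_of_subset_of_nonneg
        · intro b hb
          rw [Finset.mem_image] at hb
          obtain ⟨a, ha, rfl⟩ := hb
          exact hf a ha
        · intro b hb _
          exact hpos b hb

theorem sum_inv_sq_le (N : ℕ) : ∑ s ∈ Icc 1 N, 1 / (s : ℝ) ^ 2 ≤ 2 := by
  have key : ∀ N : ℕ, 1 ≤ N → ∑ s ∈ Icc 1 N, 1 / (s : ℝ) ^ 2 ≤ 2 - 1 / (N : ℝ) := by
    intro N hN
    induction N, hN using Nat.le_induction with
    | base => norm_num
    | succ n hn ih =>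
      rw [Finset.sum_Icc_succ_top (by omega)]
      have hn' : (1 : ℝ) ≤ n := by exact_mod_cast hn
      have h1 : 1 / ((n + 1 : ℕ) : ℝ) ^ 2 ≤ 1 / (n : ℝ) - 1 / ((n + 1 : ℕ) : ℝ) := by
        push_cast
        rw [div_sub_div _ _ (by positivity) (by positivity), div_le_div_iff₀ (by positivity)
          (by positivity)]
        nlinarith
      linarith
  rcases Nat.eq_zero_or_pos N with rfl | hN
  · simp
  · have := key N hN
    have h2 : (0 : ℝ) ≤ 1 / (N : ℝ) := by positivity
    linarith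

/-- The index set of the sieve sums. -/
def idx (z E : ℕ) : Finset ℕ := (Icc 1 z).filter (fun l => Squarefree l ∧ l.Coprime E)

theorem mem_idx {z E l : ℕ} : l ∈ idx z E ↔ (1 ≤ l ∧ l ≤ z) ∧ Squarefree l ∧ l.Coprime E := by
  simp [idx, Finset.mem_filter, Finset.mem_Icc]

theorem sieveSum_eq (κ z E : ℕ) :
    sieveSum κ z E = ∑ l ∈ idx z E, (κ : ℝ) ^ l.primeFactors.card / (l : ℝ) := rfl

theorem sieveSum_one_eq (z E : ℕ) : sieveSum 1 z E = ∑ l ∈ idx z E, 1 / (l : ℝ) := by
  rw [sieveSum_eq]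
  simp

theorem harmonic_le (z : ℕ) : ∑ n ∈ Icc 1 z, 1 / (n : ℝ) ≤ 2 * ∑ l ∈ idx z 1, 1 / (l : ℝ) := by
  have hex : ∀ n : ℕ, ∃ q : ℕ × ℕ, 1 ≤ n → (0 < q.1 ∧ 0 < q.2 ∧ q.2 ^ 2 * q.1 = n ∧
      Squarefree q.1) := by
    intro n
    by_cases hn : 1 ≤ n
    · obtain ⟨a, b, h1, h2, h3, h4⟩ := Nat.sq_mul_squarefree_of_pos (n := n) hn
      exact ⟨(a, b), fun _ => ⟨h1, h2, h3, h4⟩⟩
    · exact ⟨(0, 0), fun h => absurd h hn⟩
  choose f hf using hex
  calc ∑ n ∈ Icc 1 z, 1 / (n : ℝ)
      ≤ ∑ q ∈ idx z 1 ×ˢ Icc 1 z, 1 / (q.1 : ℝ) * (1 / (q.2 : ℝ) ^ 2) := by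
        apply sum_le_of_injOn _ _ f
        · intro n hn
          rw [Finset.mem_Icc] at hn
          obtain ⟨h1, h2, h3, h4⟩ := hf n hn.1
          rw [Finset.mem_product, mem_idx, Finset.mem_Icc]
          have h5 : (f n).1 ≤ n := by
            calc (f n).1 ≤ (f n).2 ^ 2 * (f n).1 := Nat.le_mul_of_pos_left _ (by positivity)
              _ = n := h3
          have h6 : (f n).2 ≤ n := by
            calc (f n).2 ≤ (f n).2 ^ 2 := Nat.le_self_pow (by norm_num) _
              _ ≤ (f n).2 ^ 2 * (f n).1 := Nat.le_mul_of_pos_right _ h1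
              _ = n := h3
          exact ⟨⟨⟨h1, h5.trans hn.2⟩, h4, Nat.coprime_one_right _⟩, h2, h6.trans hn.2⟩
        · intro m hm n hn hmn
          rw [Finset.coe_Icc, Set.mem_Icc] at hm hn
          rw [← (hf m hm.1).2.2.1, ← (hf n hn.1).2.2.1, hmn]
        · intro n hn
          rw [Finset.mem_Icc] at hn
          obtain ⟨h1, h2, h3, h4⟩ := hf n hn.1
          have h7 : (n : ℝ) = ((f n).2 : ℝ) ^ 2 * ((f n).1 : ℝ) := by
            exact_mod_cast h3.symm
          rw [h7]
          apply le_of_eq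
          have : ((f n).1 : ℝ) ≠ 0 := by positivity
          have : ((f n).2 : ℝ) ≠ 0 := by positivity
          field_simp
        · intro q _
          positivity
    _ = (∑ s ∈ Icc 1 z, 1 / (s : ℝ) ^ 2) * ∑ l ∈ idx z 1, 1 / (l : ℝ) := by
        rw [Finset.sum_product, Finset.sum_mul_sum, Finset.sum_comm]
        refine Finset.sum_congr rfl fun s _ => Finset.sum_congr rfl fun l _ => ?_
        ring
    _ ≤ 2 * ∑ l ∈ idx z 1, 1 / (l : ℝ) := by
        gcongr
        exact sum_inv_sq_le z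

theorem log_le (z : ℕ) (hz : 1 ≤ z) : Real.log z ≤ 2 * ∑ l ∈ idx z 1, 1 / (l : ℝ) := by
  refine le_trans ?_ (harmonic_le z)
  have h1 := log_add_one_le_harmonic z
  have h2 : ((harmonic z : ℚ) : ℝ) = ∑ n ∈ Icc 1 z, 1 / (n : ℝ) := by
    rw [harmonic_eq_sum_Icc]
    push_cast
    simp
  rw [← h2]
  refine le_trans ?_ h1
  apply Real.log_le_log
  · exact_mod_cast hz
  · push_cast
    linarith

theorem mem_badPrimes {z E p : ℕ} : p ∈ badPrimes z E ↔ p ≤ z ∧ p.Prime ∧ p ∣ E := by
  simp [badPrimes, Finset.mem_filter, Finset.mem_range]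

/-- Removing the primes of `E`. -/
theorem sum_idx_one_le (z E : ℕ) :
    ∑ l ∈ idx z 1, 1 / (l : ℝ) ≤ rhoz z E * ∑ l ∈ idx z E, 1 / (l : ℝ) := by
  classical
  have hd : ∀ l : ℕ, (∏ p ∈ (badPrimes z E).filter (· ∣ l), p) ∣ l := by
    intro l
    apply Finset.prod_primes_dvd
    · intro p hp
      rw [Finset.mem_filter, mem_badPrimes] at hp
      exact hp.1.2.1.prime
    · intro p hp
      rw [Finset.mem_filter] at hp
      exact hp.2
  calc ∑ l ∈ idx z 1, 1 / (l : ℝ)
      ≤ ∑ q ∈ (badPrimes z E).powerset ×ˢ idx z E, (∏ p ∈ q.1, 1 / (p : ℝ)) * (1 / (q.2 : ℝ)) := by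
        apply sum_le_of_injOn _ _
          (fun l => ((badPrimes z E).filter (· ∣ l), l / ∏ p ∈ (badPrimes z E).filter (· ∣ l), p))
        · intro l hl
          rw [mem_idx] at hl
          rw [Finset.mem_product, Finset.mem_powerset, mem_idx]
          refine ⟨Finset.filter_subset _ _, ?_⟩
          set d := ∏ p ∈ (badPrimes z E).filter (· ∣ l), p with hdd
          obtain ⟨m, hm⟩ := hd l
          rw [← hdd] at hm
          have hd0 : 0 < d := by
            rcases Nat.eq_zero_or_pos d with h0 | h0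
            · rw [h0, zero_mul] at hm; omega
            · exact h0
          have hlm : l / d = m := by rw [hm, Nat.mul_div_cancel_left _ hd0]
          show (1 ≤ l / d ∧ l / d ≤ z) ∧ Squarefree (l / d) ∧ (l / d).Coprime E
          rw [hlm]
          have hm0 : 0 < m := by
            rcases Nat.eq_zero_or_pos m with h0 | h0
            · rw [h0, mul_zero] at hm; omega
            · exact h0
          have hml : m ≤ l := by rw [hm]; exact Nat.le_mul_of_pos_left _ hd0
          have hsq : Squarefree (d * m) := hm ▸ hl.2.1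
          refine ⟨⟨hm0, hml.trans hl.1.2⟩, hsq.of_mul_right, ?_⟩
          rw [Nat.coprime_iff_gcd_eq_one]
          by_contra hne
          obtain ⟨p, hp, hpd⟩ := Nat.exists_prime_and_dvd hne
          have hpm : p ∣ m := hpd.trans (Nat.gcd_dvd_left _ _)
          have hpE : p ∣ E := hpd.trans (Nat.gcd_dvd_right _ _)
          have hpl : p ∣ l := hm ▸ hpm.mul_left d
          have hpz : p ≤ z := (Nat.le_of_dvd (by omega) hpl).trans hl.1.2
          have hpd' : p ∣ d := by
            rw [hdd]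
            apply Finset.dvd_prod_of_mem (fun p => p)
            rw [Finset.mem_filter, mem_badPrimes]
            exact ⟨⟨hpz, hp, hpE⟩, hpl⟩
          have := hsq p (mul_dvd_mul hpd' hpm)
          exact hp.one_lt.ne' (Nat.isUnit_iff.1 this)
        · intro l hl m hm hlm
          simp only [Prod.mk.injEq] at hlm
          have h1 := Nat.div_mul_cancel (hd l)
          have h2 := Nat.div_mul_cancel (hd m)
          rw [← h1, ← h2, hlm.2, hlm.1]
        · intro l hl
          rw [mem_idx] at hl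
          apply le_of_eq
          have h1 := Nat.div_mul_cancel (hd l)
          set d := ∏ p ∈ (badPrimes z E).filter (· ∣ l), p with hdd
          show 1 / (l : ℝ) = (∏ p ∈ (badPrimes z E).filter (· ∣ l), 1 / (p : ℝ)) *
            (1 / ((l / d : ℕ) : ℝ))
          have h2 : (∏ p ∈ (badPrimes z E).filter (· ∣ l), 1 / (p : ℝ)) = 1 / (d : ℝ) := by
            rw [hdd]
            push_cast
            simp only [one_div]
            rw [Finset.prod_inv_distrib]
          have h3 : (l : ℝ) = ((l / d : ℕ) : ℝ) * (d : ℝ) := by exact_mod_cast h1.symm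
          rw [h2]
          conv_lhs => rw [h3]
          rw [one_div_mul_one_div]
          rw [mul_comm]
        · intro q _
          positivity
    _ = rhoz z E * ∑ l ∈ idx z E, 1 / (l : ℝ) := by
        rw [Finset.sum_product, rhoz, Finset.prod_one_add, Finset.sum_mul_sum]

theorem rhoz_pos (z E : ℕ) : 0 < rhoz z E := by
  unfold rhoz
  apply Finset.prod_pos
  intro p _
  positivity

theorem one_le_prod_aux (S : Finset ℕ) : 1 ≤ ∏ p ∈ S, (1 + 1 / (p : ℝ)) := by
  classical
  induction S using Finset.induction_on with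
  | empty => simp
  | insert a S ha ih =>
    rw [Finset.prod_insert ha]
    have : (0 : ℝ) ≤ 1 / (a : ℝ) := by positivity
    nlinarith

theorem one_le_rhoz (z E : ℕ) : 1 ≤ rhoz z E := one_le_prod_aux _

theorem rhoz_mono {y z : ℕ} (h : y ≤ z) (E : ℕ) : rhoz y E ≤ rhoz z E := by
  classical
  have hsub : badPrimes y E ⊆ badPrimes z E := by
    intro p hp
    rw [mem_badPrimes] at hp ⊢
    exact ⟨hp.1.trans h, hp.2⟩
  unfold rhoz
  rw [← Finset.prod_sdiff hsub]
  have h1 := one_le_prod_aux (badPrimes z E \ badPrimes y E)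
  have h2 := rhoz_pos y E
  unfold rhoz at h2
  nlinarith

/-- MODULE SSUM -/
theorem sieveSum_one_ge (z E : ℕ) (hz : 1 ≤ z) (hE : 0 < E) :
    Real.log z / (2 * rhoz z E) ≤ sieveSum 1 z E := by
  have hr := rhoz_pos z E
  rw [div_le_iff₀ (by positivity), sieveSum_one_eq]
  have h1 := log_le z hz
  have h2 := sum_idx_one_le z E
  linarith

theorem card_divisors_squarefree {l : ℕ} (hl : Squarefree l) :
    l.divisors.card = 2 ^ l.primeFactors.card := by
  rw [Nat.card_divisors hl.ne_zero, Finset.prod_congr rfl (g := fun _ => 2), Finset.prod_const]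
  intro p hp
  have h1 := hl.natFactorization_le_one p
  have h2 : 0 < l.factorization p :=
    (Nat.prime_of_mem_primeFactors hp).factorization_pos_of_dvd hl.ne_zero
      (Nat.dvd_of_mem_primeFactors hp)
  omega

theorem sieveSum_sq_le (y z E : ℕ) (hyz : y * y ≤ z) :
    sieveSum 1 y E ^ 2 ≤ 2 * sieveSum 2 z E := by
  classical
  rw [sieveSum_one_eq, sq, Finset.sum_mul_sum, ← Finset.sum_product']
  calc ∑ q ∈ idx y E ×ˢ idx y E, 1 / (q.1 : ℝ) * (1 / (q.2 : ℝ))
      ≤ ∑ r ∈ Icc 1 y ×ˢ ((idx z E).sigma fun l => l.divisors),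
          1 / (r.1 : ℝ) ^ 2 * (1 / (r.2.1 : ℝ)) := by
        apply sum_le_of_injOn _ _
          (fun q : ℕ × ℕ => (q.1.gcd q.2, (⟨(q.1 / q.1.gcd q.2) * (q.2 / q.1.gcd q.2),
            q.1 / q.1.gcd q.2⟩ : (_ : ℕ) × ℕ)))
        · rintro ⟨a, b⟩ hq
          rw [Finset.mem_product, mem_idx, mem_idx] at hq
          obtain ⟨⟨⟨ha1, ha2⟩, ha3, ha4⟩, ⟨hb1, hb2⟩, hb3, hb4⟩ := hq
          simp only at ha1 ha2 ha3 ha4 hb1 hb2 hb3 hb4
          have hg : 0 < a.gcd b := Nat.gcd_pos_of_pos_left _ ha1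
          have hga := Nat.gcd_dvd_left a b
          have hgb := Nat.gcd_dvd_right a b
          have hcop : (a / a.gcd b).Coprime (b / a.gcd b) := Nat.coprime_div_gcd_div_gcd hg
          have hada : a / a.gcd b ∣ a := Nat.div_dvd_of_dvd hga
          have hbdb : b / a.gcd b ∣ b := Nat.div_dvd_of_dvd hgb
          have ha' : 0 < a / a.gcd b := Nat.div_pos (Nat.le_of_dvd ha1 hga) hg
          have hb' : 0 < b / a.gcd b := Nat.div_pos (Nat.le_of_dvd hb1 hgb) hg
          rw [Finset.mem_product, Finset.mem_sigma, Finset.mem_Icc, mem_idx, Nat.mem_divisors]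
          refine ⟨⟨hg, (Nat.le_of_dvd ha1 hga).trans ha2⟩, ⟨⟨Nat.mul_pos ha' hb', ?_⟩, ?_, ?_⟩,
            Dvd.intro _ rfl, (Nat.mul_pos ha' hb').ne'⟩
          · exact (Nat.mul_le_mul ((Nat.le_of_dvd ha1 hada).trans ha2)
              ((Nat.le_of_dvd hb1 hbdb).trans hb2)).trans hyz
          · exact (Nat.squarefree_mul hcop).2
              ⟨ha3.squarefree_of_dvd hada, hb3.squarefree_of_dvd hbdb⟩
          · exact Nat.Coprime.mul_left (ha4.coprime_dvd_left hada) (hb4.coprime_dvd_left hbdb)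
        · rintro ⟨a, b⟩ hab ⟨c, d⟩ hcd h
          simp only [Prod.mk.injEq, Sigma.mk.injEq, heq_eq_eq] at h
          obtain ⟨h1, h2, h3⟩ := h
          rw [Finset.mem_coe, Finset.mem_product, mem_idx, mem_idx] at hab hcd
          obtain ⟨⟨⟨ha1, -⟩, -, -⟩, ⟨hb1, -⟩, -, -⟩ := hab
          obtain ⟨⟨⟨hc1, -⟩, -, -⟩, ⟨hd1, -⟩, -, -⟩ := hcd
          simp only at ha1 hb1 hc1 hd1
          have ea := Nat.div_mul_cancel (Nat.gcd_dvd_left a b)
          have eb := Nat.div_mul_cancel (Nat.gcd_dvd_right a b)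
          have ec := Nat.div_mul_cancel (Nat.gcd_dvd_left c d)
          have ed := Nat.div_mul_cancel (Nat.gcd_dvd_right c d)
          have hc' : 0 < c / c.gcd d :=
            Nat.div_pos (Nat.le_of_dvd hc1 (Nat.gcd_dvd_left c d)) (Nat.gcd_pos_of_pos_left _ hc1)
          have hac : a = c := by rw [← ea, ← ec, h3, h1]
          have hbd' : b / a.gcd b = d / c.gcd d := by
            rw [h3] at h2
            exact Nat.eq_of_mul_eq_mul_left hc' h2
          have hbd : b = d := by rw [← eb, ← ed, hbd', h1]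
          rw [hac, hbd]
        · rintro ⟨a, b⟩ hab
          rw [Finset.mem_product, mem_idx, mem_idx] at hab
          obtain ⟨⟨⟨ha1, -⟩, -, -⟩, ⟨hb1, -⟩, -, -⟩ := hab
          simp only at ha1 hb1
          have ea := Nat.div_mul_cancel (Nat.gcd_dvd_left a b)
          have eb := Nat.div_mul_cancel (Nat.gcd_dvd_right a b)
          have ea' : (a : ℝ) = ((a / a.gcd b : ℕ) : ℝ) * (a.gcd b : ℝ) := by
            exact_mod_cast ea.symm
          have eb' : (b : ℝ) = ((b / a.gcd b : ℕ) : ℝ) * (a.gcd b : ℝ) := by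
            exact_mod_cast eb.symm
          apply le_of_eq
          show 1 / (a : ℝ) * (1 / (b : ℝ)) = 1 / ((a.gcd b : ℕ) : ℝ) ^ 2 *
            (1 / (((a / a.gcd b) * (b / a.gcd b) : ℕ) : ℝ))
          rw [Nat.cast_mul]
          conv_lhs => rw [ea', eb']
          rw [one_div_mul_one_div, one_div_mul_one_div]
          congr 1
          ring
        · intro r _
          positivity
    _ = (∑ s ∈ Icc 1 y, 1 / (s : ℝ) ^ 2) * sieveSum 2 z E := by
        rw [Finset.sum_product, sieveSum_eq, Finset.sum_mul_sum]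
        refine Finset.sum_congr rfl fun s _ => ?_
        rw [Finset.sum_sigma]
        refine Finset.sum_congr rfl fun l hl => ?_
        rw [mem_idx] at hl
        simp only [Finset.sum_const, nsmul_eq_mul]
        rw [card_divisors_squarefree hl.2.1]
        push_cast
        ring
    _ ≤ 2 * sieveSum 2 z E := by
        have : 0 ≤ sieveSum 2 z E := by
          unfold sieveSum
          positivity
        gcongr
        exact sum_inv_sq_le y

theorem sieveSum_two_ge : ∃ c : ℝ, 0 < c ∧ ∀ z E : ℕ, 1 ≤ z → 0 < E →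
    c * (Real.log z) ^ 2 / (rhoz z E) ^ 2 ≤ sieveSum 2 z E := by
  refine ⟨1 / 128, by norm_num, fun z E hz hE => ?_⟩
  have hr := rhoz_pos z E
  have hr1 := one_le_rhoz z E
  have hlog0 : 0 ≤ Real.log z := Real.log_natCast_nonneg z
  by_cases h4 : z < 4
  · have h1 : 1 ≤ sieveSum 2 z E := by
      rw [sieveSum_eq]
      calc (1 : ℝ) = ∑ l ∈ ({1} : Finset ℕ), ((2 : ℕ) : ℝ) ^ l.primeFactors.card / (l : ℝ) := by
            simp
        _ ≤ _ := by
            apply Finset.sum_le_sum_of_subset_of_nonneg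
            · intro l hl
              rw [Finset.mem_singleton] at hl
              subst hl
              rw [mem_idx]
              exact ⟨⟨le_rfl, hz⟩, squarefree_one, Nat.coprime_one_left _⟩
            · intro _ _ _
              positivity
    have h2 : Real.log z ≤ 3 := by
      have := Real.log_le_sub_one_of_pos (x := (z : ℝ)) (by exact_mod_cast hz)
      have h3 : (z : ℝ) ≤ 4 := by exact_mod_cast h4.le
      linarith
    refine le_trans ?_ h1
    rw [div_le_one (by positivity)]
    nlinarith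
  · rw [not_lt] at h4
    set y := Nat.sqrt z with hy
    have hyy : y * y ≤ z := Nat.sqrt_le z
    have hy2 : 2 ≤ y := by
      rw [hy, Nat.le_sqrt]
      omega
    have hlt : z < (y + 1) * (y + 1) := Nat.lt_succ_sqrt z
    have hz4 : z ≤ y ^ 4 := by
      have : (y + 1) * (y + 1) ≤ (y * y) * (y * y) := by
        have h : y + 1 ≤ y * y := by nlinarith
        exact Nat.mul_le_mul h h
      calc z ≤ (y + 1) * (y + 1) := hlt.le
        _ ≤ (y * y) * (y * y) := this
        _ = y ^ 4 := by ring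
    have hlogy : Real.log z ≤ 4 * Real.log y := by
      calc Real.log z ≤ Real.log ((y : ℝ) ^ 4) := by
            apply Real.log_le_log
            · exact_mod_cast hz
            · exact_mod_cast hz4
        _ = 4 * Real.log y := by
            rw [Real.log_pow]
            norm_num
    have h1 := sieveSum_one_ge y E (by omega) hE
    have h2 := sieveSum_sq_le y z E hyy
    have hry := rhoz_pos y E
    have hyz : y ≤ z := by nlinarith
    have hrm := rhoz_mono hyz E
    have h3 : Real.log z / (8 * rhoz z E) ≤ sieveSum 1 y E := by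
      refine le_trans ?_ h1
      rw [div_le_div_iff₀ (by positivity) (by positivity)]
      have hly : 0 ≤ Real.log y := Real.log_natCast_nonneg y
      nlinarith [mul_le_mul hlogy hrm hry.le (by linarith)]
    have h4' : (Real.log z / (8 * rhoz z E)) ^ 2 ≤ sieveSum 1 y E ^ 2 :=
      pow_le_pow_left₀ (by positivity) h3 2
    have h5 : 1 / 128 * Real.log z ^ 2 / rhoz z E ^ 2 =
        (Real.log z / (8 * rhoz z E)) ^ 2 / 2 := by
      field_simp
      ring
    rw [h5]
    linarith

end Pool.Agent.H5.W
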